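import Mathlib

/-!
# Functions on the embeddings of a number field with the symmetry of complex conjugation

If a function on the embeddings of `F` in an algebraic closure of `ℚ` satisfies
`a τ + a (conjugate of τ) = W` for all the complex conjugations of the algebraic closure, then its values
depend only on the restriction to the largest subfield of `F` which is totally real or CM. This is the
theorem of Weil on the infinity types of algebraic Hecke characters.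
-/

namespace Pool.Agent.D0H90.CS

open NumberField Module

/-- The embeddings `τ` and `τ'` of the number field `F` are conjugate on the largest subfield of `F` which
is totally real or CM. This subfield consists of the `x` in `F` such that for some `y` in `F`, `φ y` is
the complex conjugate of `φ x` for every complex embedding `φ`. -/
def IsConjOf {F K : Type*} [Field F] [Field K] (τ τ' : F →+* K) : Prop :=
  ∀ x y : F, (∀ φ : F →+* ℂ, φ y = star (φ x)) → τ' x = τ y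

variable {Ω : Type*} [Field Ω] [Algebra ℚ Ω]

/-- `γ` is a complex conjugation. -/
def IsC (γ : Ω ≃ₐ[ℚ] Ω) : Prop := ∃ ι : Ω →+* ℂ, ∀ x, ι (γ x) = star (ι x)

theorem exists_conj [IsGalois ℚ Ω] (ι : Ω →+* ℂ) : ∃ γ : Ω ≃ₐ[ℚ] Ω, ∀ x, ι (γ x) = star (ι x) := by
  obtain ⟨σ, hσ⟩ := ComplexEmbedding.exists_comp_symm_eq_of_comp_eq (k := ℚ) ι
    (ComplexEmbedding.conjugate ι) (by ext; simp)
  exact ⟨σ.symm, fun x => RingHom.congr_fun hσ x⟩

theorem IsC.conj {γ : Ω ≃ₐ[ℚ] Ω} (h : IsC γ) (b : Ω ≃ₐ[ℚ] Ω) : IsC (b * γ * b⁻¹) := by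
  obtain ⟨ι, hι⟩ := h
  refine ⟨ι.comp (b⁻¹ : Ω ≃ₐ[ℚ] Ω).toAlgHom.toRingHom, fun x => ?_⟩
  show ι (b⁻¹ ((b * γ * b⁻¹) x)) = star (ι (b⁻¹ x))
  rw [← hι]
  have h1 : b⁻¹ ((b * γ * b⁻¹) x) = (b⁻¹ * (b * γ * b⁻¹)) x := rfl
  rw [h1, show b⁻¹ * (b * γ * b⁻¹) = γ * b⁻¹ by group]
  rfl

theorem IsC.sq {γ : Ω ≃ₐ[ℚ] Ω} (h : IsC γ) (x : Ω) : γ (γ x) = x := by
  obtain ⟨ι, hι⟩ := h
  apply ι.injective
  rw [hι, hι, star_star]

variable {F : Type*} [Field F]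

/-- The automorphisms which preserve the function. -/
def Stab (a : (F →+* Ω) → ℤ) : Subgroup (Ω ≃ₐ[ℚ] Ω) where
  carrier := {σ | ∀ τ : F →+* Ω, a ((σ.toAlgHom : Ω →+* Ω).comp τ) = a τ}
  one_mem' := fun τ => congrArg a (by ext x; simp)
  mul_mem' := fun {σ σ'} h h' τ => by
    have h1 : (((σ * σ').toAlgHom : Ω →ₐ[ℚ] Ω) : Ω →+* Ω).comp τ =
        (σ.toAlgHom : Ω →+* Ω).comp ((σ'.toAlgHom : Ω →+* Ω).comp τ) := by ext x; simp
    rw [h1, h, h']
  inv_mem' := fun {σ} h τ => by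
    have h1 : τ = (σ.toAlgHom : Ω →+* Ω).comp (((σ⁻¹).toAlgHom : Ω →+* Ω).comp τ) := by
      ext x
      show τ x = σ (σ⁻¹ (τ x))
      rw [← AlgEquiv.mul_apply]
      simp
    conv_rhs => rw [h1]
    rw [h]

theorem mem_stab {a : (F →+* Ω) → ℤ} {σ : Ω ≃ₐ[ℚ] Ω} :
    σ ∈ Stab a ↔ ∀ τ : F →+* Ω, a ((σ.toAlgHom : Ω →+* Ω).comp τ) = a τ := Iff.rfl

variable [NumberField F] [IsAlgClosed Ω] [Algebra.IsAlgebraic ℚ Ω]

theorem gal_relation (a : (F →+* Ω) → ℤ) (W : ℤ)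
    (h : ∀ (ι : Ω →+* ℂ) (τ τ' : F →+* Ω), (∀ x, ι (τ' x) = star (ι (τ x))) → a τ + a τ' = W)
    (τ τ₁ : F →+* Ω) (hc : IsConjOf τ τ₁) : a τ + a τ₁ = W := by
  have hgal : IsGalois ℚ Ω := by
    have : IsAlgClosure ℚ Ω := ⟨inferInstance, inferInstance⟩
    have : Normal ℚ Ω := IsAlgClosure.normal ℚ Ω
    exact ⟨⟩
  have hC : ∀ {γ : Ω ≃ₐ[ℚ] Ω}, IsC γ → ∀ τ : F →+* Ω,
      a τ + a ((γ.toAlgHom : Ω →+* Ω).comp τ) = W := by
    rintro γ ⟨ι, hι⟩ τ
    exact h ι τ _ fun x => hι _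
  -- products of two complex conjugations
  have hprod : ∀ {γ γ' : Ω ≃ₐ[ℚ] Ω}, IsC γ → IsC γ' → γ * γ' ∈ Stab a := by
    intro γ γ' h1 h2
    rw [mem_stab]
    intro τ
    have e1 := hC h2 τ
    have e2 := hC h1 ((γ'.toAlgHom : Ω →+* Ω).comp τ)
    have h3 : (((γ * γ').toAlgHom : Ω →ₐ[ℚ] Ω) : Ω →+* Ω).comp τ =
        (γ.toAlgHom : Ω →+* Ω).comp ((γ'.toAlgHom : Ω →+* Ω).comp τ) := by ext x; simp
    rw [h3]
    linarith
  set N : Subgroup (Ω ≃ₐ[ℚ] Ω) := (Stab a).normalCore with hN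
  have hprodN : ∀ {γ γ' : Ω ≃ₐ[ℚ] Ω}, IsC γ → IsC γ' → γ * γ' ∈ N := by
    intro γ γ' h1 h2 b
    have h3 : b * (γ * γ') * b⁻¹ = (b * γ * b⁻¹) * (b * γ' * b⁻¹) := by group
    rw [h3]
    exact hprod (h1.conj b) (h2.conj b)
  -- the first embedding and the subgroup
  set K₁ : IntermediateField ℚ Ω := τ₁.toRatAlgHom.fieldRange with hK₁
  have : FiniteDimensional ℚ K₁ :=
    LinearEquiv.finiteDimensional (AlgEquiv.ofInjectiveField τ₁.toRatAlgHom).toLinearEquiv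
  have hopen : IsOpen ((N ⊔ K₁.fixingSubgroup : Subgroup (Ω ≃ₐ[ℚ] Ω)) : Set (Ω ≃ₐ[ℚ] Ω)) :=
    Subgroup.isOpen_mono le_sup_right K₁.fixingSubgroup_isOpen
  let S : ClosedSubgroup (Ω ≃ₐ[ℚ] Ω) :=
    { toSubgroup := N ⊔ K₁.fixingSubgroup
      isClosed' := Subgroup.isClosed_of_isOpen _ hopen }
  have hfix := InfiniteGalois.fixingSubgroup_fixedField S
  -- a complex conjugation
  obtain ⟨ι⟩ : Nonempty (Ω →+* ℂ) := ⟨(IsAlgClosed.lift (R := ℚ) (S := Ω) (M := ℂ)).toRingHom⟩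
  obtain ⟨γ, hγ⟩ := exists_conj ι
  have hγC : IsC γ := ⟨ι, hγ⟩
  -- every embedding of `F` extends
  have hext : ∀ (φ : F →+* ℂ) (t : F →+* Ω), ∃ ι' : Ω →+* ℂ, ι'.comp t = φ := by
    intro φ t
    let := t.toAlgebra
    let := φ.toAlgebra
    have : IsScalarTower ℚ F Ω := IsScalarTower.of_algebraMap_eq' (Subsingleton.elim _ _)
    have : Algebra.IsAlgebraic F Ω := Algebra.IsAlgebraic.tower_top (K := ℚ) F
    refine ⟨(IsAlgClosed.lift (R := F) (S := Ω) (M := ℂ)).toRingHom, ?_⟩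
    ext x
    exact (IsAlgClosed.lift (R := F) (S := Ω) (M := ℂ)).commutes x
  obtain ⟨σ, hσ⟩ : ∃ σ : Ω ≃ₐ[ℚ] Ω, ∀ x, σ (τ₁ x) = γ (τ x) := by
    obtain ⟨ι', hι'⟩ := hext (ι.comp ((γ.toAlgHom : Ω →+* Ω).comp τ)) τ₁
    obtain ⟨σ, hσ⟩ := ComplexEmbedding.exists_comp_symm_eq_of_comp_eq (k := ℚ) ι ι' (by ext; simp)
    refine ⟨σ.symm, fun x => ι.injective ?_⟩
    have h1 := RingHom.congr_fun hι' x
    have h2 := RingHom.congr_fun hσ (τ₁ x)
    exact h2.trans h1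
  have hσS : σ ∈ (IntermediateField.fixedField S.toSubgroup).fixingSubgroup := by
    rw [IntermediateField.mem_fixingSubgroup_iff]
    intro e he
    have he : ∀ g ∈ N ⊔ K₁.fixingSubgroup, g e = e := by
      intro g hg
      exact (IntermediateField.mem_fixedField_iff _ _).mp he g hg
    have heK : e ∈ K₁ := by
      rw [← InfiniteGalois.fixedField_fixingSubgroup K₁, IntermediateField.mem_fixedField_iff]
      exact fun g hg => he g (Subgroup.mem_sup_right hg)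
    obtain ⟨x', hx'⟩ := AlgHom.mem_fieldRange.mp heK
    replace hx' : τ₁ x' = e := hx'
    have hsame : ∀ {γ' : Ω ≃ₐ[ℚ] Ω}, IsC γ' → γ' e = γ e := by
      intro γ' h'
      have h1 := he _ (Subgroup.mem_sup_left (hprodN hγC h'))
      rw [AlgEquiv.mul_apply] at h1
      calc γ' e = γ (γ (γ' e)) := (hγC.sq _).symm
        _ = γ e := by rw [h1]
    have hzK : γ e ∈ K₁ := by
      rw [← InfiniteGalois.fixedField_fixingSubgroup K₁, IntermediateField.mem_fixedField_iff]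
      intro g hg
      have h1 : g (γ e) = (g * γ * g⁻¹) (g e) := by
        rw [← AlgEquiv.mul_apply, ← AlgEquiv.mul_apply]
        congr 1
        group
      rw [h1, he g (Subgroup.mem_sup_right hg)]
      exact hsame (hγC.conj g)
    obtain ⟨y', hy'⟩ := AlgHom.mem_fieldRange.mp hzK
    replace hy' : τ₁ y' = γ e := hy'
    have hconj : ∀ φ : F →+* ℂ, φ y' = star (φ x') := by
      intro φ
      obtain ⟨ι', hι'⟩ := hext φ τ₁
      obtain ⟨γ', hγ'⟩ := exists_conj ι'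
      rw [← hι']
      show ι' (τ₁ y') = star (ι' (τ₁ x'))
      rw [hy', ← hsame ⟨ι', hγ'⟩, hγ', hx']
    have hcx := hc x' y' hconj
    have h1 : τ y' = γ (τ x') := by
      apply ι.injective
      rw [hγ]
      exact hconj (ι.comp τ)
    calc σ e = σ (τ₁ x') := by rw [hx']
      _ = γ (τ x') := hσ x'
      _ = τ y' := h1.symm
      _ = τ₁ x' := hcx.symm
      _ = e := hx'
  rw [hfix] at hσS
  have h1 : σ ∈ ((N ⊔ K₁.fixingSubgroup : Subgroup (Ω ≃ₐ[ℚ] Ω)) : Set (Ω ≃ₐ[ℚ] Ω)) := hσS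
  have : N.Normal := Subgroup.normalCore_normal _
  rw [Subgroup.normal_mul] at h1
  obtain ⟨n, hn, g, hg, hng⟩ := Set.mem_mul.mp h1
  have h2 : (γ.toAlgHom : Ω →+* Ω).comp τ = (n.toAlgHom : Ω →+* Ω).comp τ₁ := by
    ext x
    show γ (τ x) = n (τ₁ x)
    rw [← hσ x, ← hng, AlgEquiv.mul_apply]
    congr 1
    exact (IntermediateField.mem_fixingSubgroup_iff _ _).mp hg _
      (AlgHom.mem_fieldRange.mpr ⟨x, rfl⟩)
  have h3 := hC hγC τ
  rw [h2, (mem_stab.mp ((Stab a).normalCore_le hn)) τ₁] at h3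
  exact h3

end Pool.Agent.D0H90.CS
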