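import Pool.Agent.D0H90.CS.Weight

/-!
# Number fields without CM subfields
-/

namespace Pool.Agent.D0H90.CS

open NumberField Module Finset

variable {F : Type*} [Field F] [NumberField F]

/-- embeddings extend -/
theorem exists_extend (L : IntermediateField ℚ F) (φ₀ : L →+* ℂ) :
    ∃ φ : F →+* ℂ, ∀ x : L, φ (x : F) = φ₀ x := by
  let := φ₀.toAlgebra
  have : Algebra.IsAlgebraic L F := Algebra.IsAlgebraic.tower_top (K := ℚ) L
  refine ⟨(IsAlgClosed.lift (R := L) (S := F) (M := ℂ)).toRingHom, fun x => ?_⟩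
  exact (IsAlgClosed.lift (R := L) (S := F) (M := ℂ)).commutes x

theorem conj_unique {x y y' : F} (h : ∀ φ : F →+* ℂ, φ y = star (φ x))
    (h' : ∀ φ : F →+* ℂ, φ y' = star (φ x)) : y = y' := by
  obtain ⟨φ⟩ : Nonempty (F →+* ℂ) := inferInstance
  exact φ.injective (by rw [h, h'])

variable (F) in
/-- the largest subfield which is totally real or CM -/
def maxCM : IntermediateField ℚ F where
  carrier := {x | ∃ y : F, ∀ φ : F →+* ℂ, φ y = star (φ x)}
  mul_mem' := fun {x x'} ⟨y, hy⟩ ⟨y', hy'⟩ => ⟨y * y', fun φ => by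
    rw [map_mul, map_mul, hy, hy', star_mul, mul_comm]⟩
  add_mem' := fun {x x'} ⟨y, hy⟩ ⟨y', hy'⟩ => ⟨y + y', fun φ => by
    rw [map_add, map_add, hy, hy', star_add]⟩
  algebraMap_mem' := fun q => ⟨algebraMap ℚ F q, fun φ => by simp⟩
  inv_mem' := fun x ⟨y, hy⟩ => ⟨y⁻¹, fun φ => by rw [map_inv₀, map_inv₀, hy]; simp⟩

theorem mem_maxCM {x : F} : x ∈ maxCM F ↔ ∃ y : F, ∀ φ : F →+* ℂ, φ y = star (φ x) := Iff.rfl

/-- the complex conjugation of this subfield, as a function -/
noncomputable def cf (x : maxCM F) : maxCM F :=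
  ⟨(mem_maxCM.mp x.2).choose, ⟨x, fun φ => by
    rw [(mem_maxCM.mp x.2).choose_spec φ, star_star]⟩⟩

theorem cf_spec (x : maxCM F) (φ : F →+* ℂ) : φ (cf x : F) = star (φ (x : F)) :=
  (mem_maxCM.mp x.2).choose_spec φ

theorem cf_eq {x y : maxCM F} (h : ∀ φ : F →+* ℂ, φ (y : F) = star (φ (x : F))) : cf x = y :=
  Subtype.ext (conj_unique (cf_spec x) h)

variable (F) in
/-- the complex conjugation of this subfield -/
noncomputable def cmConj : maxCM F ≃+* maxCM F where
  toFun := cf
  invFun := cf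
  left_inv := fun x => cf_eq fun φ => by rw [cf_spec, star_star]
  right_inv := fun x => cf_eq fun φ => by rw [cf_spec, star_star]
  map_mul' := fun x y => cf_eq fun φ => by
    show φ ((cf x : F) * (cf y : F)) = star (φ ((x : F) * (y : F)))
    rw [map_mul, map_mul, cf_spec, cf_spec, star_mul, mul_comm]
  map_add' := fun x y => cf_eq fun φ => by
    show φ ((cf x : F) + (cf y : F)) = star (φ ((x : F) + (y : F)))
    rw [map_add, map_add, cf_spec, cf_spec, star_add]

theorem cmConj_apply (x : maxCM F) : cmConj F x = cf x := rfl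

theorem embedding_cmConj (φ₀ : maxCM F →+* ℂ) (x : maxCM F) :
    φ₀ (cmConj F x) = star (φ₀ x) := by
  obtain ⟨φ, hφ⟩ := exists_extend (maxCM F) φ₀
  rw [← hφ, ← hφ]
  exact cf_spec x φ

theorem isCMField_maxCM (h : cmConj F ≠ 1) : IsCMField (maxCM F) := by
  classical
  have hsq : cmConj F ^ 2 = 1 := by
    ext x
    rw [pow_two]
    show ((cf (cf x) : maxCM F) : F) = x
    rw [cf_eq (x := cf x) (y := x) fun φ => by rw [cf_spec, star_star]]
  have hord : orderOf (cmConj F) = 2 := orderOf_eq_prime hsq h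
  have hcard : Nat.card (Subgroup.zpowers (cmConj F)) = 2 := by rw [Nat.card_zpowers, hord]
  have hfin : Finite (Subgroup.zpowers (cmConj F)) := Nat.finite_of_card_ne_zero (by omega)
  let : Fintype (Subgroup.zpowers (cmConj F)) := Fintype.ofFinite _
  have htc : IsTotallyComplex (maxCM F) := by
    refine ⟨fun v => ?_⟩
    rw [← InfinitePlace.mk_embedding v, InfinitePlace.isComplex_mk_iff]
    intro hr
    apply h
    ext x
    congr 1
    apply v.embedding.injective
    rw [embedding_cmConj]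
    exact RingHom.congr_fun hr x
  let E := FixedPoints.subfield (Subgroup.zpowers (cmConj F)) (maxCM F)
  have hE : ∀ x : E, cmConj F (x : maxCM F) = x := fun x => x.2 ⟨cmConj F, Subgroup.mem_zpowers _⟩
  have htr : IsTotallyReal E := by
    refine ⟨fun v => ?_⟩
    obtain ⟨φ₀, hφ₀⟩ : ∃ φ₀ : maxCM F →+* ℂ, ∀ x : E, φ₀ (x : maxCM F) = v.embedding x := by
      let := v.embedding.toAlgebra
      have : Algebra.IsAlgebraic E (maxCM F) := by infer_instance
      refine ⟨(IsAlgClosed.lift (R := E) (S := maxCM F) (M := ℂ)).toRingHom, fun x => ?_⟩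
      exact (IsAlgClosed.lift (R := E) (S := maxCM F) (M := ℂ)).commutes x
    rw [← InfinitePlace.mk_embedding v, InfinitePlace.isReal_mk_iff]
    ext x
    show star (v.embedding x) = v.embedding x
    rw [← hφ₀, ← embedding_cmConj, hE]
  have hq : Algebra.IsQuadraticExtension E (maxCM F) := by
    refine ⟨?_⟩
    have h1 := FixedPoints.finrank_eq_card (Subgroup.zpowers (cmConj F)) (maxCM F)
    rw [← Nat.card_eq_fintype_card, hcard] at h1
    exact h1
  exact IsCMField.ofCMExtension E (maxCM F)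

/-- no CM subfields -/
theorem isConjOf_self (h : ∀ M : IntermediateField ℚ F, ¬ IsCMField M) {K : Type*} [Field K]
    (τ : F →+* K) : IsConjOf τ τ := by
  intro x y hxy
  have h1 : cmConj F = 1 := by
    by_contra h2
    exact h _ (isCMField_maxCM h2)
  have h2 := cf_eq (x := ⟨x, y, hxy⟩) (y := ⟨y, x, fun φ => by rw [hxy, star_star]⟩) hxy
  have h3 : cf (⟨x, y, hxy⟩ : maxCM F) = ⟨x, y, hxy⟩ := by
    rw [← cmConj_apply, h1]
    rfl
  rw [h3] at h2
  have h4 : x = y := congrArg Subtype.val h2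
  rw [h4]

theorem isConjOf_comp {c : F →+* F} (h : ∃ φ : F →+* ℂ, ∀ x, φ (c x) = star (φ x)) {K : Type*}
    [Field K] (τ : F →+* K) : IsConjOf τ (τ.comp c) := by
  obtain ⟨φ, hφ⟩ := h
  intro x y hxy
  have h1 : c x = y := φ.injective (by rw [hφ, hxy])
  show τ (c x) = τ y
  rw [h1]

/-- conjugate embeddings exist -/
theorem exists_isConjOf {K : Type*} [Field K] [CharZero K] [IsAlgClosed K] (τ : F →+* K) :
    ∃ τ' : F →+* K, IsConjOf τ τ' := by
  have hac : IsAlgClosed (algebraicClosure ℚ K) := (algebraicClosure.isAlgClosure ℚ K).isAlgClosed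
  let : Algebra ℚ (algebraicClosure ℚ K) := (algebraicClosure ℚ K).algebra'
  have hal : Algebra.IsAlgebraic ℚ (algebraicClosure ℚ K) := algebraicClosure.isAlgebraic ℚ K
  have hgal : IsGalois ℚ (algebraicClosure ℚ K) := by
    have : IsAlgClosure ℚ (algebraicClosure ℚ K) := ⟨inferInstance, inferInstance⟩
    have : Normal ℚ (algebraicClosure ℚ K) := IsAlgClosure.normal ℚ _
    exact ⟨⟩
  obtain ⟨ι⟩ : Nonempty (algebraicClosure ℚ K →+* ℂ) :=
    ⟨(IsAlgClosed.lift (R := ℚ) (S := algebraicClosure ℚ K) (M := ℂ)).toRingHom⟩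
  obtain ⟨γ, hγ⟩ := exists_conj ι
  refine ⟨(algebraMap (algebraicClosure ℚ K) K).comp
    (((γ : algebraicClosure ℚ K →ₐ[ℚ] algebraicClosure ℚ K) :
      algebraicClosure ℚ K →+* algebraicClosure ℚ K).comp (res τ)), fun x y hxy => ?_⟩
  have h1 : γ (res τ x) = res τ y := by
    apply ι.injective
    rw [hγ]
    exact (hxy (ι.comp (res τ))).symm
  show ((γ (res τ x) : algebraicClosure ℚ K) : K) = τ y
  rw [h1, res_coe]

end Pool.Agent.D0H90.CS
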