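import Pool.Agent.D0H90.CS.Gal

/-!
# Realizations of pure motives which are dual to their conjugates
-/

namespace Pool.Agent.D0H90.CS

open NumberField Module Polynomial Finset

/-- The polynomial `P` over `E` divides a monic polynomial with integral coefficients, all of whose
complex roots have absolute value `q ^ (w / 2)`: the roots of `P` are algebraic integers, all of whose
complex conjugates have absolute value `q ^ (w / 2)`. -/
def IsWeilPoly {E : Type*} [Field E] (P : E[X]) (q w : ℕ) : Prop :=
  ∃ Q : ℤ[X], Q.Monic ∧ (∀ z : ℂ, z ∈ Q.aroots ℂ → ‖z‖ ^ 2 = (q : ℝ) ^ w) ∧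
    P ∣ Q.map (Int.castRingHom E)

/-- the subspace `U` is stable under the representation -/
def Stable {E Γ V : Type*} [Field E] [Group Γ] [AddCommGroup V] [Module E V]
    (ρ : Representation E Γ V) (U : Submodule E V) : Prop :=
  ∀ g : Γ, ∀ x ∈ U, ρ g x ∈ U

/-- The realization `V` with coefficients in the field `E` (an extension of `ℚ_ℓ`, contained in its
algebraic closure `K`) of a pure motive of weight `w` over the number field `F`, which is dual to its
conjugate under the automorphism `c` of `F`, twisted by the weight. `h τ r` is the Hodge number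
`h^{r,w-r}` at the embedding `τ` of `F` in `K`. For `c` the identity, this is a polarized motive. If `F` is
a CM field and `c` the complex conjugation, this is a motive of unitary type.

The fields are the properties of the realization which are used. -/
structure MotivicRep (F : Type*) [Field F] [NumberField F] (c : F →+* F) (w : ℕ) (E : Type*)
    {K : Type*} [Field E] [Field K] [CharZero K] [Algebra E K] (h : (F →+* K) → ℕ → ℕ)
    (Γ : Type*) [Group Γ] (V : Type*) [AddCommGroup V] [Module E V] [FiniteDimensional E V] where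
  /-- the action of the Galois group -/
  ρ : Representation E Γ V
  /-- the pairing of `V` with its conjugate -/
  B : LinearMap.BilinForm E V
  /-- the conjugation of the Galois group by an extension of `c` to the algebraic closure -/
  conj : Γ ≃* Γ
  μ : Γ → E
  similitude : ∀ g x y, B (ρ g x) (ρ (conj g) y) = μ g * B x y
  /-- the ideal whose prime divisors are the places of bad reduction and those above `ℓ` -/
  bad : Ideal (𝓞 F)
  bad_ne_bot : bad ≠ ⊥
  /-- geometric Frobenius elements -/
  frob : Ideal (𝓞 F) → Γ
  /-- the theorem of Deligne -/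
  pure : ∀ 𝔭 : Ideal (𝓞 F), 𝔭.IsMaximal → ¬ bad ≤ 𝔭 →
    IsWeilPoly (ρ (frob 𝔭)).charpoly (Ideal.absNorm 𝔭) w
  /-- `m τ U r` is the multiplicity of the Hodge-Tate weight `r` at `τ` in the stable subspace `U` -/
  m : (F →+* K) → Submodule E V → ℕ → ℕ
  mono : ∀ τ U U', Stable ρ U → Stable ρ U' → U ≤ U' → ∀ r, m τ U r ≤ m τ U' r
  sum : ∀ τ U, Stable ρ U → ∑ r ∈ range (w + 1), m τ U r = finrank E U
  /-- the multiplicities are the same at the embeddings conjugate over `E` -/
  place : ∀ (g : K ≃ₐ[E] K) τ U, Stable ρ U → ∀ r, m ((g.toAlgHom : K →+* K).comp τ) U r = m τ U r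
  /-- the quotient by the orthogonal complement of `U` is the dual of the conjugate of `U`, twisted
  by the weight -/
  dual : ∀ τ U, Stable ρ U → ∀ r ≤ w, m τ (B.orthogonal U) r + m (τ.comp c) U (w - r) = h τ r
  /-- The determinant of `U` is a Hodge-Tate character; by class field theory and the theorems of Tate,
  Sen and Serre, it is locally algebraic: up to roots of unity of bounded order, its value on the
  product of the Frobenius elements of a principal ideal prime to `bad` is the product of the
  conjugates of the generator, with the exponents given by the Hodge-Tate weights. -/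
  reciprocity : ∀ U (hU : Stable ρ U), ∃ e : ℕ, 0 < e ∧ ∀ x : 𝓞 F, x ≠ 0 → Ideal.span {x} ⊔ bad = ⊤ →
    ((UniqueFactorizationMonoid.normalizedFactors (Ideal.span {x})).map fun 𝔭 =>
      algebraMap E K (LinearMap.det ((ρ (frob 𝔭)).restrict (hU (frob 𝔭))))).prod ^ e =
      (∏ τ : F →+* K, τ (x : F) ^ ∑ r ∈ range (w + 1), r * m τ U r) ^ e

namespace MotivicRep

variable {F : Type*} [Field F] [NumberField F] {c : F →+* F} {w : ℕ} {E K : Type*} [Field E]
  [Field K] [CharZero K] [Algebra E K] {h : (F →+* K) → ℕ → ℕ} {Γ : Type*} [Group Γ] {V : Type*}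
  [AddCommGroup V] [Module E V] [FiniteDimensional E V]

/-- every stable subspace is nondegenerate for the pairing, and its orthogonal complement is a stable
complement -/
def Semisimple (A : MotivicRep F c w E h Γ V) : Prop :=
  ∀ U, Stable A.ρ U → Stable A.ρ (A.B.orthogonal U) ∧ IsCompl U (A.B.orthogonal U)

/-- all endomorphisms which commute with the Galois group are self-adjoint for the pairing, and
commute with each other -/
def SelfAdjoint (A : MotivicRep F c w E h Γ V) : Prop :=
  ∀ f : V →ₗ[E] V, (∀ g x, f (A.ρ g x) = A.ρ g (f x)) → (∀ x y, A.B (f x) y = A.B x (f y)) ∧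
    ∀ f' : V →ₗ[E] V, (∀ g x, f' (A.ρ g x) = A.ρ g (f' x)) → ∀ x, f (f' x) = f' (f x)

end MotivicRep

/-- The Hodge numbers `h τ r` do not allow stable isotropic subspaces: there are no numbers
`P τ r` (the Hodge-Tate multiplicities of an isotropic subspace `U` of dimension `d`), not all zero, with
the sum `d` for every `τ`, such that `P τ r + P (τ c) (w - r) ≤ h τ r`, which are the same at
embeddings conjugate over `E`, and for which the sum of the weights at two embeddings which are conjugate
on the largest totally real or CM subfield of `F` is `w d`. -/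
def NoIsotropic (F : Type*) [Field F] (c : F →+* F) (w : ℕ) (E : Type*) {K : Type*} [Field E] [Field K]
    [Algebra E K] (h : (F →+* K) → ℕ → ℕ) : Prop :=
  ∀ (P : (F →+* K) → ℕ → ℕ) (d : ℕ),
    (∀ τ, ∀ r ≤ w, P τ r + P (τ.comp c) (w - r) ≤ h τ r) →
    (∀ τ, ∑ r ∈ range (w + 1), P τ r = d) →
    (∀ (g : K ≃ₐ[E] K) τ r, P ((g.toAlgHom : K →+* K).comp τ) r = P τ r) →
    (∀ τ τ', IsConjOf τ τ' →
      ∑ r ∈ range (w + 1), r * P τ r + ∑ r ∈ range (w + 1), r * P τ' r = w * d) → d = 0

/-- Some conjugate over `E` of the embedding `τ c` agrees with the complex conjugate of `τ` on the largest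
totally real or CM subfield of `F`. -/
def Matches {F : Type*} [Field F] (c : F →+* F) (E : Type*) {K : Type*} [Field E] [Field K]
    [Algebra E K] (τ : F →+* K) : Prop :=
  ∃ g : K ≃ₐ[E] K, IsConjOf τ ((g.toAlgHom : K →+* K).comp (τ.comp c))

/-- All the Hodge numbers are at most one, and no nonempty set of indices `r` with `h r ≠ 0` and
`h (w - r) ≠ 0`, which contains no two (equal or different) indices with the sum `w`, has the mean
`w / 2`. -/
def Dissociated (w : ℕ) (h : ℕ → ℕ) : Prop :=
  (∀ r ≤ w, h r ≤ 1) ∧ ∀ S : Finset ℕ, (∀ r ∈ S, r ≤ w ∧ h r ≠ 0 ∧ h (w - r) ≠ 0 ∧ w - r ∉ S) →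
    2 * ∑ r ∈ S, r = w * #S → S = ∅

/-- All the Hodge numbers are at most one, and two disjoint nonempty sets of the same size of indices
`r` with `h r ≠ 0` never have the same sum. -/
def ExtremelyRegular (w : ℕ) (h : ℕ → ℕ) : Prop :=
  (∀ r ≤ w, h r ≤ 1) ∧ ∀ S T : Finset ℕ, (∀ r ∈ S, r ≤ w ∧ h r ≠ 0) → (∀ r ∈ T, r ≤ w ∧ h r ≠ 0) →
    Disjoint S T → #S = #T → ∑ r ∈ S, r = ∑ r ∈ T, r → S = ∅

end Pool.Agent.D0H90.CS
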