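import Pool.Agent.D0H90.CS.Defs

/-!
# Algebraic numbers all of whose complex conjugates have the same absolute value
-/

namespace Pool.Agent.D0H90.CS

open NumberField Module Polynomial Finset

variable {k : Type*} [Field k] [CharZero k]

/-- `y` is algebraic, and all its complex conjugates have absolute value `√s` -/
def IsPure (y : k) (s : ℝ) : Prop :=
  ∃ y' : algebraicClosure ℚ k, (y' : k) = y ∧ ∀ ι : algebraicClosure ℚ k →+* ℂ, ‖ι y'‖ ^ 2 = s

theorem IsPure.one : IsPure (1 : k) 1 := ⟨1, by simp, fun ι => by simp⟩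

theorem IsPure.mul {y z : k} {s t : ℝ} (h : IsPure y s) (h' : IsPure z t) :
    IsPure (y * z) (s * t) := by
  obtain ⟨y', hy, h1⟩ := h
  obtain ⟨z', hz, h2⟩ := h'
  refine ⟨y' * z', by simp [hy, hz], fun ι => ?_⟩
  rw [map_mul, norm_mul, mul_pow, h1, h2]

theorem IsPure.pow {y : k} {s : ℝ} (h : IsPure y s) (n : ℕ) : IsPure (y ^ n) (s ^ n) := by
  obtain ⟨y', hy, h1⟩ := h
  refine ⟨y' ^ n, by simp [hy], fun ι => ?_⟩
  rw [map_pow, norm_pow, ← h1 ι]
  ring

theorem IsPure.multiset {α : Type*} (f : α → k) (g : α → ℝ) (s : Multiset α)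
    (h : ∀ a ∈ s, IsPure (f a) (g a)) : IsPure (s.map f).prod (s.map g).prod := by
  induction s using Multiset.induction_on with
  | empty => simpa using IsPure.one
  | cons a s ih =>
    rw [Multiset.map_cons, Multiset.map_cons, Multiset.prod_cons, Multiset.prod_cons]
    exact (h a (Multiset.mem_cons_self a s)).mul (ih fun b hb => h b (Multiset.mem_cons_of_mem hb))

theorem isPure_root {Q : ℤ[X]} (hQ : Q.Monic) {q w : ℕ}
    (h : ∀ z : ℂ, z ∈ Q.aroots ℂ → ‖z‖ ^ 2 = (q : ℝ) ^ w) {z : k}
    (hz : (Q.map (Int.castRingHom k)).IsRoot z) : IsPure z ((q : ℝ) ^ w) := by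
  have h1 : Q.eval₂ (Int.castRingHom k) z = 0 := by
    rw [IsRoot, eval_map] at hz
    exact hz
  have hint : IsIntegral ℤ z := ⟨Q, hQ, by
    rw [← h1]
    congr 1⟩
  have halg : z ∈ algebraicClosure ℚ k := by
    rw [mem_algebraicClosure_iff]
    exact (hint.isAlgebraic).extendScalars (R := ℤ) (by exact Int.cast_injective)
  refine ⟨⟨z, halg⟩, rfl, fun ι => h _ ?_⟩
  rw [mem_aroots]
  refine ⟨hQ.ne_zero, ?_⟩
  have h2 : aeval (⟨z, halg⟩ : algebraicClosure ℚ k) Q = 0 := by
    apply (algebraMap (algebraicClosure ℚ k) k).injective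
    rw [map_zero, ← h1, aeval_def, hom_eval₂]
    congr 1
  have h3 := congrArg ι h2
  rw [map_zero, aeval_def, hom_eval₂] at h3
  rw [aeval_def, ← h3]
  congr 1
  exact Subsingleton.elim _ _

variable {E : Type*} [Field E] [Algebra E k] {V : Type*} [AddCommGroup V] [Module E V]
  [FiniteDimensional E V]

/-- The determinant on a stable subspace is pure. -/
theorem isPure_det [IsAlgClosed k] {f : V →ₗ[E] V} {q w : ℕ} (hf : IsWeilPoly f.charpoly q w)
    {U : Submodule E V} (hU : ∀ x ∈ U, f x ∈ U) :
    IsPure (algebraMap E k (LinearMap.det (f.restrict hU))) (((q : ℝ) ^ w) ^ finrank E U) := by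
  classical
  obtain ⟨Q, hQ, hr, hdvd⟩ := hf
  -- the polynomial `Q` vanishes at `f`
  have h0 : aeval f (Q.map (Int.castRingHom E)) = 0 := by
    obtain ⟨R, hR⟩ := hdvd
    rw [hR, map_mul, LinearMap.aeval_self_charpoly, zero_mul]
  have h1 : aeval (f.restrict hU) (Q.map (Int.castRingHom E)) = 0 := by
    ext x
    have h2 : ((aeval (f.restrict hU) (Q.map (Int.castRingHom E)) x : U) : V) =
        aeval f (Q.map (Int.castRingHom E)) (x : V) := by
      have h3 : ∀ P : E[X], ∀ x : U, ((aeval (f.restrict hU) P x : U) : V) = aeval f P (x : V) := by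
        intro P
        induction P using Polynomial.induction_on' with
        | add p q hp hq => intro x; simp [hp x, hq x]
        | monomial n a =>
          intro x
          rw [aeval_monomial, aeval_monomial]
          simp only [Module.End.mul_apply, Module.algebraMap_end_apply]
          have h4 : ∀ n : ℕ, ∀ x : U, ((((f.restrict hU) ^ n) x : U) : V) = (f ^ n) (x : V) := by
            intro n
            induction n with
            | zero => intro x; rfl
            | succ n ih =>
              intro x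
              rw [pow_succ, pow_succ, Module.End.mul_apply, Module.End.mul_apply, ih]
              rfl
          rw [Submodule.coe_smul, h4]
      exact h3 _ x
    rw [h2, h0]
    rfl
  let b := Module.finBasis E U
  let M := LinearMap.toMatrix b b (f.restrict hU)
  have h2 : aeval M (Q.map (Int.castRingHom E)) = 0 := by
    have h3 := congrArg (LinearMap.toMatrixAlgEquiv b) h1
    rw [map_zero, ← aeval_algHom_apply] at h3
    exact h3
  let N : Matrix _ _ k := M.map (algebraMap E k)
  have h3 : aeval N (Q.map (Int.castRingHom k)) = 0 := by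
    have h4 := congrArg (algebraMap E k).mapMatrix h2
    rw [map_zero] at h4
    rw [← h4, aeval_def, eval₂_map, aeval_def, eval₂_map, hom_eval₂]
    congr 1
    exact Subsingleton.elim _ _
  have hs : N.charpoly.Splits := IsAlgClosed.splits _
  have hdet : algebraMap E k (LinearMap.det (f.restrict hU)) = N.charpoly.roots.prod := by
    rw [← Matrix.det_eq_prod_roots_charpoly_of_splits hs, ← LinearMap.det_toMatrix b,
      RingHom.map_det]
    rfl
  rw [hdet]
  have h5 : ∀ z ∈ N.charpoly.roots, IsPure z ((q : ℝ) ^ w) := by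
    intro z hz
    refine isPure_root hQ hr ?_
    have h6 : N.charpoly.IsRoot z := (mem_roots'.mp hz).2
    have h7 : (LinearMap.charpoly (Matrix.toLin' N)).IsRoot z := by
      rwa [Matrix.charpoly_toLin']
    rw [← Module.End.hasEigenvalue_iff_isRoot_charpoly] at h7
    have h8 := Module.End.isRoot_of_hasEigenvalue h7
    refine h8.dvd (minpoly.dvd _ _ ?_)
    have h9 := congrArg (Matrix.toLinAlgEquiv' (R := k)) h3
    rw [map_zero, ← aeval_algHom_apply] at h9
    exact h9
  have h6 := IsPure.multiset (fun z : k => z) (fun _ => (q : ℝ) ^ w) N.charpoly.roots h5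
  rw [Multiset.map_id', Multiset.map_const', Multiset.prod_replicate,
    (splits_iff_card_roots.mp hs), Matrix.charpoly_natDegree_eq_dim, Fintype.card_fin] at h6
  exact h6

end Pool.Agent.D0H90.CS
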