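import Pool.Agent.D0H90.CS.Units
import Pool.Agent.D0H90.CS.Pure

/-!
# The Hodge-Tate weights of the determinants of stable subspaces
-/

namespace Pool.Agent.D0H90.CS

open NumberField Module Polynomial Finset UniqueFactorizationMonoid

variable {F : Type*} [Field F] [NumberField F] {k : Type*} [Field k] [CharZero k]

/-- an embedding in `k` has values in the algebraic closure of `ℚ` in `k` -/
noncomputable def res (τ : F →+* k) : F →+* algebraicClosure ℚ k :=
  RingHom.codRestrict τ (algebraicClosure ℚ k) fun x => by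
    rw [mem_algebraicClosure_iff]
    have h1 : IsAlgebraic ℚ (τ.toRatAlgHom x) :=
      (Algebra.IsAlgebraic.isAlgebraic (R := ℚ) x).algHom τ.toRatAlgHom
    exact h1

theorem res_coe (τ : F →+* k) (x : F) : ((res τ x : algebraicClosure ℚ k) : k) = τ x := rfl

theorem res_comp (t : F →+* algebraicClosure ℚ k) :
    res ((algebraMap (algebraicClosure ℚ k) k).comp t) = t := by
  ext x; rfl

theorem res_injective : Function.Injective (res (F := F) (k := k)) := by
  intro τ τ' h
  ext x
  rw [← res_coe, h, res_coe]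

theorem embeddings_bijective [IsAlgClosed k] (ι : algebraicClosure ℚ k →+* ℂ) :
    Function.Bijective fun τ : F →+* k => ι.comp (res τ) := by
  rw [Fintype.bijective_iff_injective_and_card]
  refine ⟨fun τ τ' h => res_injective ?_, ?_⟩
  · ext x
    have := ι.injective (RingHom.congr_fun h x)
    rw [this]
  · rw [Embeddings.card, Embeddings.card]

variable {c : F →+* F} {w : ℕ} {E : Type*} [Field E] [Algebra E k] {h : (F →+* k) → ℕ → ℕ}
  {Γ : Type*} [Group Γ] {V : Type*} [AddCommGroup V] [Module E V] [FiniteDimensional E V]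

/-- the sum of the Hodge-Tate weights of `U` at `τ` -/
def total (A : MotivicRep F c w E h Γ V) (U : Submodule E V) (τ : F →+* k) : ℕ :=
  ∑ r ∈ range (w + 1), r * A.m τ U r

theorem norm_identity [IsAlgClosed k] (A : MotivicRep F c w E h Γ V) {U : Submodule E V}
    (hU : Stable A.ρ U) (ι : algebraicClosure ℚ k →+* ℂ) {x : 𝓞 F} (hx : x ≠ 0)
    (hb : Ideal.span {x} ⊔ A.bad = ⊤) :
    ((Ideal.absNorm (Ideal.span {x}) : ℝ) ^ w) ^ finrank E U =
      ∏ τ : F →+* k, (‖ι (res τ (x : F))‖ ^ 2) ^ total A U τ := by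
  classical
  obtain ⟨e, he, hrec⟩ := A.reciprocity U hU
  have h1 := hrec x hx hb
  have hne : Ideal.span {x} ≠ ⊥ := by rwa [Ne, Ideal.span_singleton_eq_bot]
  -- the determinants of the Frobenius elements
  have h2 := IsPure.multiset (fun 𝔭 => algebraMap E k
      (LinearMap.det ((A.ρ (A.frob 𝔭)).restrict (hU (A.frob 𝔭)))))
    (fun 𝔭 : Ideal (𝓞 F) => ((Ideal.absNorm 𝔭 : ℝ) ^ w) ^ finrank E U)
    (normalizedFactors (Ideal.span {x})) (fun 𝔭 h𝔭 => by
      have h3 : Prime 𝔭 := prime_of_normalized_factor 𝔭 h𝔭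
      have h4 : 𝔭.IsPrime := Ideal.isPrime_of_prime h3
      have h5 : 𝔭.IsMaximal := h4.isMaximal h3.ne_zero
      refine isPure_det (A.pure 𝔭 h5 fun h6 => ?_) _
      have h7 : Ideal.span {x} ≤ 𝔭 := Ideal.dvd_iff_le.mp (dvd_of_mem_normalizedFactors h𝔭)
      have h8 : (⊤ : Ideal (𝓞 F)) ≤ 𝔭 := by
        rw [← hb]
        exact sup_le h7 h6
      exact h5.ne_top (top_le_iff.mp h8))
  have h3 : ((normalizedFactors (Ideal.span {x})).map
      fun 𝔭 : Ideal (𝓞 F) => ((Ideal.absNorm 𝔭 : ℝ) ^ w) ^ finrank E U).prod =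
      ((Ideal.absNorm (Ideal.span {x}) : ℝ) ^ w) ^ finrank E U := by
    conv_rhs => rw [← Ideal.prod_normalizedFactors_eq_self hne]
    rw [map_multiset_prod, ← pow_mul, Nat.cast_multiset_prod, ← Multiset.prod_map_pow,
      Multiset.map_map]
    congr 1
    refine Multiset.map_congr rfl fun 𝔭 _ => ?_
    rw [← pow_mul]
    rfl
  rw [h3] at h2
  obtain ⟨y', hy, hpure⟩ := h2
  have h4 : y' ^ e = (∏ τ : F →+* k, res τ (x : F) ^ total A U τ) ^ e := by
    apply (algebraMap (algebraicClosure ℚ k) k).injective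
    rw [map_pow, map_pow, map_prod]
    have h5 : algebraMap (algebraicClosure ℚ k) k y' = y' := rfl
    rw [h5, hy, h1]
    congr 1
  have h5 := congrArg (fun z => ‖ι z‖ ^ 2) h4
  simp only [map_pow, map_prod, norm_pow, norm_prod] at h5
  have h6 : (‖ι y'‖ ^ 2) ^ e =
      (∏ τ : F →+* k, (‖ι (res τ (x : F))‖ ^ 2) ^ total A U τ) ^ e := by
    rw [← pow_mul, mul_comm 2 e, pow_mul, h5, ← pow_mul, mul_comm e 2, pow_mul]
    congr 1
    rw [← Finset.prod_pow]
    refine Finset.prod_congr rfl fun τ _ => ?_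
    rw [← pow_mul, ← pow_mul, mul_comm]
  rw [hpure] at h6
  exact (pow_left_inj₀ (by positivity) (by positivity) he.ne').mp h6

theorem log_identity [IsAlgClosed k] (A : MotivicRep F c w E h Γ V) {U : Submodule E V}
    (hU : Stable A.ρ U) (ι : algebraicClosure ℚ k →+* ℂ) {x : 𝓞 F} (hx : x ≠ 0)
    (hb : Ideal.span {x} ⊔ A.bad = ⊤) :
    ∑ τ : F →+* k, ((2 * (total A U τ : ℤ) - w * finrank E U : ℤ) : ℝ) *
      Real.log ‖ι (res τ (x : F))‖ = 0 := by
  have h1 := congrArg Real.log (norm_identity A hU ι hx hb)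
  have hx' : (x : F) ≠ 0 := by
    intro h0
    exact hx (RingOfIntegers.coe_injective (h0.trans (map_zero _).symm))
  have hpos : ∀ τ : F →+* k, ‖ι (res τ (x : F))‖ ≠ 0 := fun τ => by
    rw [norm_ne_zero_iff]
    intro h0
    have h2 : res τ (x : F) = 0 := ι.injective (by rw [h0, map_zero])
    exact hx' ((res τ).injective (by rw [h2, map_zero]))
  rw [Real.log_prod (fun τ _ => pow_ne_zero _ (pow_ne_zero _ (hpos τ))), Real.log_pow,
    Real.log_pow] at h1
  have h2 : Real.log (Ideal.absNorm (Ideal.span {x}) : ℝ) =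
      ∑ τ : F →+* k, Real.log ‖ι (res τ (x : F))‖ := by
    rw [← Real.log_prod (fun τ _ => hpos τ)]
    congr 1
    rw [Ideal.absNorm_span_singleton]
    have h3 : ((Algebra.norm ℚ (x : F) : ℚ) : ℂ) = ∏ φ : F →+* ℂ, φ (x : F) := by
      have := Algebra.norm_eq_prod_embeddings ℚ ℂ (x : F)
      rw [← Fintype.prod_equiv (RingHom.equivRatAlgHom F ℂ) (fun f : F →+* ℂ => f x)
        (fun f => f x) fun _ => by simp [RingHom.equivRatAlgHom_apply]] at this
      rw [← this]
      rfl
    have h4 : (∏ τ : F →+* k, ‖ι (res τ (x : F))‖) = ∏ φ : F →+* ℂ, ‖φ (x : F)‖ :=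
      Fintype.prod_bijective _ (embeddings_bijective ι) _ _ fun τ => rfl
    rw [h4, ← norm_prod, ← h3, ← Algebra.coe_norm_int, Nat.cast_natAbs]
    push_cast
    rw [← Complex.norm_intCast]
  have h3 : ∀ τ : F →+* k, Real.log ((‖ι (res τ (x : F))‖ ^ 2) ^ total A U τ) =
      2 * total A U τ * Real.log ‖ι (res τ (x : F))‖ := fun τ => by
    rw [Real.log_pow, Real.log_pow]
    push_cast
    ring
  simp_rw [h3] at h1
  rw [h2] at h1
  have h4 : ∀ τ : F →+* k, ((2 * (total A U τ : ℤ) - w * finrank E U : ℤ) : ℝ) *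
      Real.log ‖ι (res τ (x : F))‖ = 2 * total A U τ * Real.log ‖ι (res τ (x : F))‖ -
        w * finrank E U * Real.log ‖ι (res τ (x : F))‖ := by
    intro τ
    push_cast
    ring
  simp_rw [h4]
  rw [Finset.sum_sub_distrib, ← h1, ← Finset.mul_sum]
  ring

/-- **The weights of a stable subspace.** -/
theorem weight [IsAlgClosed k] (A : MotivicRep F c w E h Γ V) {U : Submodule E V}
    (hU : Stable A.ρ U) (τ τ' : F →+* k) (hc : IsConjOf τ τ') :
    total A U τ + total A U τ' = w * finrank E U := by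
  let a : (F →+* algebraicClosure ℚ k) → ℤ :=
    fun t => total A U ((algebraMap (algebraicClosure ℚ k) k).comp t)
  have hres : ∀ τ : F →+* k, a (res τ) = total A U τ := fun τ => by
    show ((total A U _ : ℕ) : ℤ) = _
    congr 2
  have hmain : ∀ (ι : algebraicClosure ℚ k →+* ℂ) (t t' : F →+* algebraicClosure ℚ k),
      (∀ x, ι (t' x) = star (ι (t x))) → a t + a t' = w * finrank E U := by
    intro ι t t' htt
    let e := Equiv.ofBijective _ (embeddings_bijective (F := F) ι)
    let f : (F →+* ℂ) → ℤ := fun φ => 2 * (total A U (e.symm φ) : ℤ) - w * finrank E U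
    have h1 := embedding_relation' f A.bad A.bad_ne_bot (fun x hx hb => by
      have h2 := log_identity A hU ι hx hb
      rw [← h2]
      refine (Fintype.sum_equiv e _ _ fun τ => ?_).symm
      show _ = ((2 * (total A U (e.symm (e τ)) : ℤ) - w * finrank E U : ℤ) : ℝ) *
        Real.log ‖ι (res τ (x : F))‖
      rw [e.symm_apply_apply]) (ι.comp t)
    have h2 : e.symm (ι.comp t) = (algebraMap (algebraicClosure ℚ k) k).comp t := by
      rw [Equiv.symm_apply_eq]
      show _ = ι.comp (res _)
      rw [res_comp]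
    have h3 : e.symm (ComplexEmbedding.conjugate (ι.comp t)) =
        (algebraMap (algebraicClosure ℚ k) k).comp t' := by
      rw [Equiv.symm_apply_eq]
      show _ = ι.comp (res _)
      rw [res_comp]
      ext x
      exact (htt x).symm
    have h4 : (2 * (total A U (e.symm (ι.comp t)) : ℤ) - w * finrank E U) +
        (2 * (total A U (e.symm (ComplexEmbedding.conjugate (ι.comp t))) : ℤ) -
          w * finrank E U) = 0 := h1
    rw [h2, h3] at h4
    show ((total A U _ : ℕ) : ℤ) + ((total A U _ : ℕ) : ℤ) = _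
    linarith
  have hac : IsAlgClosed (algebraicClosure ℚ k) := (algebraicClosure.isAlgClosure ℚ k).isAlgClosed
  have hconj : IsConjOf (res τ) (res τ') := fun x y hxy => Subtype.ext (hc x y hxy)
  have := @gal_relation (algebraicClosure ℚ k) _ (algebraicClosure ℚ k).algebra' F _ _ hac
    (algebraicClosure.isAlgebraic ℚ k) a _ hmain (res τ) (res τ') hconj
  rw [hres, hres] at this
  exact_mod_cast this

end Pool.Agent.D0H90.CS
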