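import Mathlib

/-!
# Linear relations between the logarithms of the absolute values of elements
-/

namespace Pool.Agent.D0H90.CS

open NumberField NumberField.InfinitePlace Module

variable {F : Type*} [Field F] [NumberField F]

/-- A linear relation between the logarithms of the absolute values of all units is a multiple of the
product formula (a consequence of Dirichlet's unit theorem). -/
theorem unit_relation (g : InfinitePlace F → ℝ)
    (h : ∀ u : (𝓞 F)ˣ, ∑ v, g v * Real.log (v (u : F)) = 0) :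
    ∃ t : ℝ, ∀ v, g v = t * v.mult := by
  classical
  have hpos : ∀ v : InfinitePlace F, (0 : ℝ) < v.mult := fun v => by
    exact_mod_cast v.mult_pos
  obtain ⟨w₁, hw₁⟩ := Finite.exists_min (fun v : InfinitePlace F => g v / v.mult)
  refine ⟨g w₁ / w₁.mult, fun v => ?_⟩
  by_contra hv
  obtain ⟨u, hu⟩ := NumberField.Units.dirichletUnitTheorem.exists_unit F w₁
  have h1 := h u
  have h2 := NumberField.Units.sum_mult_mul_log u
  have h3 : ∑ v : InfinitePlace F, (g v - g w₁ / w₁.mult * v.mult) * Real.log (v (u : F)) = 0 := by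
    have : ∀ v : InfinitePlace F, (g v - g w₁ / w₁.mult * v.mult) * Real.log (v (u : F)) =
        g v * Real.log (v (u : F)) - g w₁ / w₁.mult * (v.mult * Real.log (v (u : F))) := by
      intro v; ring
    simp_rw [this, Finset.sum_sub_distrib, ← Finset.mul_sum]
    rw [h1, h2]; ring
  have h4 : ∀ v : InfinitePlace F, (g v - g w₁ / w₁.mult * v.mult) * Real.log (v (u : F)) ≤ 0 := by
    intro v
    have h5 : 0 ≤ g v - g w₁ / w₁.mult * v.mult := by
      have := (le_div_iff₀ (hpos v)).mp (hw₁ v)
      linarith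
    by_cases hvw : v = w₁
    · subst hvw
      have : g v - g v / v.mult * v.mult = 0 := by
        rw [div_mul_cancel₀ _ (hpos v).ne']; ring
      rw [this, zero_mul]
    · exact mul_nonpos_of_nonneg_of_nonpos h5 (hu v hvw).le
  have h6 := (Finset.sum_eq_zero_iff_of_nonpos (fun v _ => h4 v)).mp h3 v (Finset.mem_univ _)
  rcases mul_eq_zero.mp h6 with h7 | h7
  · exact hv (by linarith)
  · by_cases hvw : v = w₁
    · subst hvw
      exact hv (by rw [div_mul_cancel₀ _ (hpos v).ne'])
    · exact (hu v hvw).ne h7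

/-- If the relation also holds for one rational integer different from `0`, `1`, `-1` then it is
trivial. -/
theorem relation_trivial (g : InfinitePlace F → ℝ)
    (h : ∀ u : (𝓞 F)ˣ, ∑ v, g v * Real.log (v (u : F)) = 0)
    (n : ℕ) (hn : 2 ≤ n) (h2 : ∑ v : InfinitePlace F, g v * Real.log (v (n : F)) = 0) :
    ∀ v, g v = 0 := by
  obtain ⟨t, ht⟩ := unit_relation g h
  have h3 : ∀ v : InfinitePlace F, v (n : F) = n := fun v => by simp
  simp_rw [h3, ht, ← Finset.sum_mul] at h2
  have h4 : 0 < Real.log n := Real.log_pos (by exact_mod_cast hn)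
  rcases mul_eq_zero.mp h2 with h5 | h5
  · rw [← Finset.mul_sum] at h5
    rcases mul_eq_zero.mp h5 with h6 | h6
    · intro v; rw [ht, h6, zero_mul]
    · exfalso
      have h7 : ∑ v : InfinitePlace F, (v.mult : ℝ) = finrank ℚ F := by
        exact_mod_cast congrArg (Nat.cast : ℕ → ℝ) (NumberField.InfinitePlace.sum_mult_eq (K := F))
      rw [h7] at h6
      have : 0 < finrank ℚ F := finrank_pos
      exact absurd h6 (by exact_mod_cast this.ne')
  · exact absurd h5 h4.ne'

theorem conj_conj (φ : F →+* ℂ) :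
    ComplexEmbedding.conjugate (ComplexEmbedding.conjugate φ) = φ := star_star φ

/-- Relations between the absolute values at the complex embeddings. -/
theorem embedding_relation (f : (F →+* ℂ) → ℤ) (J : Ideal (𝓞 F)) (hJ : J ≠ ⊥)
    (h : ∀ x : 𝓞 F, x ≠ 0 → Ideal.span {x} ⊔ J = ⊤ →
      ∑ φ : F →+* ℂ, (f φ : ℝ) * Real.log ‖φ (x : F)‖ = 0) (φ : F →+* ℂ) :
    (ComplexEmbedding.IsReal φ → f φ = 0) ∧
      (¬ ComplexEmbedding.IsReal φ → f φ + f (ComplexEmbedding.conjugate φ) = 0) := by
  classical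
  let g : InfinitePlace F → ℝ := fun v => ∑ φ : F →+* ℂ with InfinitePlace.mk φ = v, (f φ : ℝ)
  have hg : ∀ x : F, ∑ v, g v * Real.log (v x) =
      ∑ φ : F →+* ℂ, (f φ : ℝ) * Real.log ‖φ x‖ := by
    intro x
    rw [← Finset.sum_fiberwise (s := Finset.univ) (g := fun φ : F →+* ℂ => InfinitePlace.mk φ)
      (f := fun φ : F →+* ℂ => (f φ : ℝ) * Real.log ‖φ x‖)]
    refine Finset.sum_congr rfl fun v _ => ?_
    rw [Finset.sum_mul]
    refine Finset.sum_congr rfl fun φ hφ => ?_
    rw [← (Finset.mem_filter.mp hφ).2, apply]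
  -- an integer in `J`
  obtain ⟨N, hN0, hN⟩ : ∃ N : ℕ, 0 < N ∧ (N : 𝓞 F) ∈ J := by
    refine ⟨Ideal.absNorm J, Nat.pos_of_ne_zero fun h0 => hJ (Ideal.absNorm_eq_zero_iff.mp h0), ?_⟩
    exact Ideal.absNorm_mem J
  have hone : ∀ x : 𝓞 F, x - 1 ∈ J → Ideal.span {x} ⊔ J = ⊤ := by
    intro x hx
    rw [Ideal.eq_top_iff_one]
    have : (1 : 𝓞 F) = x + -(x - 1) := by ring
    rw [this]
    exact Submodule.add_mem_sup (Ideal.mem_span_singleton_self x) (J.neg_mem hx)
  have hzero := relation_trivial g (fun u => by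
    rw [hg]
    refine h (u : 𝓞 F) u.ne_zero ?_
    rw [Ideal.span_singleton_eq_top.mpr u.isUnit, top_sup_eq]) (N + 1) (by omega) (by
    have h1 := h ((N : 𝓞 F) + 1) (by exact_mod_cast Nat.succ_ne_zero N)
      (hone _ (by simpa using hN))
    rw [hg]
    convert h1 using 4
    push_cast
    simp)
  have h1 := hzero (InfinitePlace.mk φ)
  constructor
  · intro hr
    have h2 : (Finset.univ.filter fun ψ : F →+* ℂ => InfinitePlace.mk ψ = InfinitePlace.mk φ) = {φ} := by
      ext ψ
      simp only [Finset.mem_filter, Finset.mem_univ, true_and, Finset.mem_singleton]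
      rw [mk_eq_iff]
      constructor
      · rintro (h3 | h3)
        · exact h3
        · have : ComplexEmbedding.conjugate (ComplexEmbedding.conjugate ψ) = ComplexEmbedding.conjugate φ :=
            by rw [h3]
          rw [conj_conj] at this
          rw [this]; exact hr
      · intro h3; exact Or.inl h3
    have h3 : g (InfinitePlace.mk φ) = (f φ : ℝ) := by
      show ∑ φ : F →+* ℂ with _, (f φ : ℝ) = _
      rw [h2, Finset.sum_singleton]
    rw [h3] at h1
    exact_mod_cast h1
  · intro hr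
    have hne : φ ≠ ComplexEmbedding.conjugate φ := fun h3 => hr h3.symm
    have h2 : (Finset.univ.filter fun ψ : F →+* ℂ => InfinitePlace.mk ψ = InfinitePlace.mk φ) =
        {φ, ComplexEmbedding.conjugate φ} := by
      ext ψ
      simp only [Finset.mem_filter, Finset.mem_univ, true_and, Finset.mem_singleton,
        Finset.mem_insert]
      rw [mk_eq_iff]
      refine or_congr Iff.rfl ⟨fun h3 => ?_, fun h3 => ?_⟩
      · rw [← h3, conj_conj]
      · rw [h3, conj_conj]
    have h3 : g (InfinitePlace.mk φ) = (f φ : ℝ) + f (ComplexEmbedding.conjugate φ) := by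
      show ∑ φ : F →+* ℂ with _, (f φ : ℝ) = _
      rw [h2, Finset.sum_pair hne]
    rw [h3] at h1
    exact_mod_cast h1

/-- In both cases the sum of `f` at `φ` and at the conjugate embedding is zero. -/
theorem embedding_relation' (f : (F →+* ℂ) → ℤ) (J : Ideal (𝓞 F)) (hJ : J ≠ ⊥)
    (h : ∀ x : 𝓞 F, x ≠ 0 → Ideal.span {x} ⊔ J = ⊤ →
      ∑ φ : F →+* ℂ, (f φ : ℝ) * Real.log ‖φ (x : F)‖ = 0) (φ : F →+* ℂ) :
    f φ + f (ComplexEmbedding.conjugate φ) = 0 := by
  by_cases hr : ComplexEmbedding.IsReal φ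
  · have h1 := (embedding_relation f J hJ h φ).1 hr
    rw [ComplexEmbedding.isReal_iff.mp hr, h1]; rfl
  · exact (embedding_relation f J hJ h φ).2 hr

end Pool.Agent.D0H90.CS
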